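import Mathlib

/-! A pure birth chain hits its last state in a window of length n with probability 1/2. -/

open Finset

namespace Pool.Agent.Results.MP_eadfc1_pr.Counter

/-- `hit P y k x` is the probability that the chain with transition matrix `P` started at `x`
visits `y` for the first time at time `k`: the sum over all trajectories -/
noncomputable def hit {n : ℕ} (P : Matrix (Fin n) (Fin n) ℝ) (y : Fin n) (k : ℕ) (x : Fin n) : ℝ :=
  ∑ s : Fin (k + 1) → Fin n with s 0 = x ∧ s (Fin.last k) = y ∧ ∀ i : Fin k, s i.castSucc ≠ y,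
    ∏ i : Fin k, P (s i.castSucc) (s i.succ)

lemma hit_zero {n : ℕ} (P : Matrix (Fin n) (Fin n) ℝ) (y x : Fin n) :
    hit P y 0 x = if x = y then 1 else 0 := by
  unfold hit
  split_ifs with h
  · subst h
    rw [sum_eq_single_of_mem (fun _ => x) (by simp)]
    · simp
    · intro s hs hne
      exact absurd (funext fun i => by rw [Fin.eq_zero i]; exact (mem_filter.mp hs).2.1) hne
  · apply sum_eq_zero
    intro s hs
    exact absurd ((mem_filter.mp hs).2.1.symm.trans (mem_filter.mp hs).2.2.1) h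

lemma hit_succ {n : ℕ} (P : Matrix (Fin n) (Fin n) ℝ) (y x : Fin n) (k : ℕ) :
    hit P y (k + 1) x = if x = y then 0 else ∑ z, P x z * hit P y k z := by
  unfold hit
  split_ifs with h
  · apply sum_eq_zero
    intro s hs
    have := (mem_filter.mp hs).2
    exact absurd (this.1.trans h) (this.2.2 0)
  · simp only [mul_sum, sum_filter]
    rw [← (Fin.consEquiv fun _ => Fin n).sum_comp, Fintype.sum_prod_type,
      Finset.sum_eq_single x, sum_comm]
    · refine sum_congr rfl fun s _ => ?_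
      rw [Finset.sum_eq_single (s 0)]
      · simp [Fin.consEquiv, Fin.forall_fin_succ, h, Fin.prod_univ_succ, ← Fin.succ_last]
      · intro z _ hz
        simp [hz.symm]
      · simp
    · intro z _ hz
      simp [Fin.consEquiv, hz]
    · simp

noncomputable def B (d : ℕ) (p : ℝ) : Matrix (Fin (d + 1)) (Fin (d + 1)) ℝ := fun i j =>
  if i = 0 then (if j = 0 then 1 else 0)
  else (if j = i then 1 - p else 0) + (if (j : ℕ) + 1 = i then p else 0)

lemma B_sum (d : ℕ) (p : ℝ) (i : Fin d) (u : Fin (d + 1) → ℝ) :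
    ∑ z, B d p i.succ z * u z = (1 - p) * u i.succ + p * u i.castSucc := by
  have : ∀ z : Fin (d + 1), ((z : ℕ) + 1 = (i.succ : Fin (d + 1))) ↔ z = i.castSucc := by
    intro z
    rw [Fin.ext_iff]
    simp
  simp only [B, if_neg (Fin.succ_ne_zero i), add_mul, sum_add_distrib, this, ite_mul, zero_mul,
    sum_ite_eq', mem_univ, if_true]

noncomputable def G (d : ℕ) (p : ℝ) (k : ℕ) (x : Fin (d + 1)) : ℝ :=
  ∑ j ∈ range (k + 1), hit (B d p) 0 j x

lemma G_zero (d : ℕ) (p : ℝ) (k : ℕ) : G d p k 0 = 1 := by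
  rw [G, sum_range_succ']
  simp [hit_zero, hit_succ]

lemma G_start (d : ℕ) (p : ℝ) (i : Fin d) : G d p 0 i.succ = 0 := by
  simp [G, hit_zero]

lemma G_succ (d : ℕ) (p : ℝ) (k : ℕ) (i : Fin d) :
    G d p (k + 1) i.succ = (1 - p) * G d p k i.succ + p * G d p k i.castSucc := by
  rw [G, sum_range_succ']
  simp only [hit_zero, hit_succ, if_neg (Fin.succ_ne_zero i), B_sum, add_zero, sum_add_distrib,
    G, mul_sum]

lemma G_bounds (d : ℕ) {p c : ℝ} (hp : 0 ≤ p) (hp1 : p ≤ 1) (hc : 0 < c) (k : ℕ) :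
    ∀ x : Fin (d + 1), c ^ 2 * G d p k x ≤ (k * p - x + c) ^ 2 + k * p * (1 - p) ∧
      c ^ 2 * (1 - G d p k x) ≤ (k * p - x - c) ^ 2 + k * p * (1 - p) := by
  have hq : 0 ≤ 1 - p := by linarith
  have h0 : ∀ k : ℕ, c ^ 2 * G d p k 0 ≤ (k * p - (0 : Fin (d + 1)) + c) ^ 2 + k * p * (1 - p) ∧
      c ^ 2 * (1 - G d p k 0) ≤ (k * p - (0 : Fin (d + 1)) - c) ^ 2 + k * p * (1 - p) := by
    intro k
    have : 0 ≤ k * p := by positivity
    rw [G_zero]
    simp only [Fin.val_zero, Nat.cast_zero, sub_zero, sub_self, mul_zero, mul_one]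
    constructor
    · nlinarith [mul_nonneg this hq]
    · positivity
  induction k with
  | zero =>
    intro x
    refine Fin.cases (h0 0) (fun i => ?_) x
    rw [G_start]
    have : (0 : ℝ) ≤ (i.succ : ℕ) := Nat.cast_nonneg _
    simp only [Nat.cast_zero, zero_mul, mul_zero, add_zero, sub_zero, mul_one]
    constructor
    · positivity
    · nlinarith
  | succ k ih =>
    intro x
    refine Fin.cases (h0 _) (fun i => ?_) x
    have h1 := ih i.succ
    have h2 := ih i.castSucc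
    rw [G_succ]
    simp only [Fin.val_succ, Fin.val_castSucc] at h1 h2 ⊢
    push_cast at h1 h2 ⊢
    constructor
    · nlinarith [mul_le_mul_of_nonneg_left h1.1 hq, mul_le_mul_of_nonneg_left h2.1 hp]
    · nlinarith [mul_le_mul_of_nonneg_left h1.2 hq, mul_le_mul_of_nonneg_left h2.2 hp]

theorem result (C : ℝ) : ∃ (n : ℕ) (P : Matrix (Fin n) (Fin n) ℝ) (x y : Fin n) (t : ℕ),
    (∀ i j, 0 ≤ P i j) ∧ (∀ i, ∑ j, P i j = 1) ∧ n < t ∧
    C * n / t < ∑ k ∈ Icc t (t + n), hit P y k x := by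
  obtain ⟨L, hL⟩ := exists_nat_ge (6 * |C|)
  obtain ⟨K, hK, hK3⟩ : ∃ K : ℕ, 6 * |C| < K ∧ 3 ≤ K := ⟨L + 3, by push_cast; linarith, by omega⟩
  have hK' : (3 : ℝ) ≤ K := by exact_mod_cast hK3
  have hp : (0 : ℝ) ≤ 1 / K := by positivity
  have hp1 : (1 : ℝ) / K ≤ 1 := by rw [div_le_one (by linarith)]; linarith
  obtain ⟨M, hM⟩ : ∃ M, 2 * K = M + 1 := ⟨2 * K - 1, by omega⟩
  have hM' : (M : ℝ) = 2 * K - 1 := by
    have : ((2 * K : ℕ) : ℝ) = (M + 1 : ℕ) := by rw [hM]
    push_cast at this; linarith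
  have hnn : ∀ i j, 0 ≤ B (16 * K ^ 2) (1 / K) i j := by
    intro i j
    unfold B
    split_ifs <;> linarith
  refine ⟨16 * K ^ 2 + 1, B (16 * K ^ 2) (1 / K), Fin.last _, 0, 8 * K ^ 2 * M + 1, hnn,
    fun i => ?_, ?_, ?_⟩
  rotate_left
  · nlinarith [Nat.mul_le_mul_left (8 * K ^ 2) (show 5 ≤ M by omega),
      pow_pos (show 0 < K by omega) 2]
  rotate_left
  · refine Fin.cases (by simp [B]) (fun i => ?_) i
    simpa using B_sum _ (1 / K) i fun _ => 1
  · have b1 := (G_bounds (16 * K ^ 2) hp hp1 (c := 8 * K) (by positivity) (8 * K ^ 2 * M)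
      (Fin.last _)).1
    have b2 := (G_bounds (16 * K ^ 2) hp hp1 (c := 8 * K) (by positivity) (8 * K ^ 2 * (M + 2))
      (Fin.last _)).2
    have e1 : ((8 * K ^ 2 * M : ℕ) : ℝ) * (1 / K) = 16 * K ^ 2 - 8 * K := by
      push_cast; rw [hM']; field_simp; ring
    have e2 : ((8 * K ^ 2 * (M + 2) : ℕ) : ℝ) * (1 / K) = 16 * K ^ 2 + 8 * K := by
      push_cast; rw [hM']; field_simp; ring
    rw [e1] at b1
    rw [e2] at b2
    simp only [Fin.val_last] at b1 b2
    push_cast at b1 b2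
    have h1 : 1 / 2 ≤ G (16 * K ^ 2) (1 / K) (8 * K ^ 2 * (M + 2)) (Fin.last _) -
        G (16 * K ^ 2) (1 / K) (8 * K ^ 2 * M) (Fin.last _) := by
      have : (0 : ℝ) < (8 * K) ^ 2 := by positivity
      nlinarith [mul_nonneg hp (sq_nonneg (K : ℝ))]
    rw [G, G, ← sum_Ico_eq_sub _ (by nlinarith)] at h1
    have h2 : ∑ k ∈ Ico (8 * K ^ 2 * M + 1) (8 * K ^ 2 * (M + 2) + 1),
        hit (B (16 * K ^ 2) (1 / K)) 0 k (Fin.last _) ≤
        ∑ k ∈ Icc (8 * K ^ 2 * M + 1) (8 * K ^ 2 * M + 1 + (16 * K ^ 2 + 1)),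
        hit (B (16 * K ^ 2) (1 / K)) 0 k (Fin.last _) := by
      apply sum_le_sum_of_subset_of_nonneg
      · intro k hk
        rw [mem_Ico] at hk
        rw [mem_Icc]
        constructor
        · exact hk.1
        · nlinarith [hk.2]
      · exact fun k _ _ => sum_nonneg fun s _ => prod_nonneg fun i _ => hnn _ _
    refine lt_of_lt_of_le ?_ (h1.trans h2)
    rw [div_lt_iff₀ (by positivity)]
    push_cast
    rw [hM']
    have := le_abs_self C
    have h3 : (0 : ℝ) ≤ 16 * K ^ 2 + 1 := by positivity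
    nlinarith [mul_le_mul_of_nonneg_right (this.trans (show |C| ≤ K / 6 by linarith)) h3,
      mul_nonneg (sub_nonneg.mpr hK') (sq_nonneg (K : ℝ))]

end Pool.Agent.Results.MP_eadfc1_pr.Counter
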